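import Pool.Agent.BRF.Upper

/-!
# The cohomology of the locally symmetric spaces of `GL_n` over number fields

Let `F` be a number field and `Y(K_f)` the locally symmetric space of level `K_f` of the group `GL_n`
over `F`. Let `m` be a maximal ideal of the Hecke algebra in the support of the cohomology of `Y(K_f)`
in degree `i`, with coefficients in any local system `W`, modulo any prime `p`.

* If `i ≤ n - 2`, the Hecke eigenvalues modulo `m` are those on a function of the determinant, at all
  places outside `S` with at most `i` exceptions.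
* If `K_f` is torsion free (in particular, if it is neat), `i ≤ d_Y - (n - 1)`.
* If a non-Eisenstein Galois representation is attached to `m`, then `n - 1 ≤ i`; so if `K_f` is torsion
  free and `q₀ ≤ n - 1`, in particular for `GL₃` over `ℚ`, then `q₀ ≤ i ≤ q₀ + ℓ₀`.
-/

open Pool.Agent.BRF in
theorem Pool.Agent.Results.MP_34be05_nt.DegreeRange.result
    (F : Type) [Field F] [NumberField F] (n : ℕ) (hn : 0 < n) (L : Level F n) (V : Coef L)
    (hV : V.IsCont) (m : Ideal (HeckeAlg V)) [m.IsMaximal] (k : Type) [Field k] [Algebra (Res m) k]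
    (i : ℕ) (hm : InSupport V i m) :
    (i + 2 ≤ n → ∃ T : Finset (Pl F), T.card ≤ i ∧
      ∀ (v : Pl F) (hv : ¬ Ab L.S v), v ∉ T → IsDetType m k v hv) ∧
    (L.TorsionFree → (i : ℤ) ≤ dY F n - (n - 1)) ∧
    ∀ ρ : GRep F n k, Attached m k ρ → NonEisenstein ρ →
      (n : ℤ) - 1 ≤ i ∧
      (L.TorsionFree → (q0 F n ≤ n - 1 ∨ n = 3 ∧ Module.finrank ℚ F = 1) →
        q0 F n ≤ i ∧ (i : ℤ) ≤ q0 F n + ell0 F n) :=
  main2 F n hn L V hV m k i hm
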