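import Pool.Agent.CGNF.Main

/-!
# The Calegari-Geraghty vanishing conjecture for central division algebras over number fields

Let `D` be a central division algebra of degree `n` over the number field `F`, and `Y(K_f)` the
locally symmetric space of level `K_f` of the multiplicative group of `D`. Assume that the real
rank `r` of this group modulo its centre is not zero. For every prime `p`, every local system `W`
and every non-Eisenstein maximal ideal `m` of the Hecke algebra, the localisation at `m` of the
cohomology of `Y(K_f)` is concentrated in the degrees from `1` to `d_Y - 1`, and from `2` to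
`d_Y - 2` if `r ≥ 2`. If `q₀ ≤ 2` and `q₀ ≤ r`, this gives the range from `q₀` to `q₀ + ℓ₀` of the
conjecture: this covers the quaternion algebras which are split at one or two archimedean places
and the algebras of degree `3` over `ℚ`.
-/

open Pool.Agent.CGNF in
theorem Pool.Agent.Results.MP_34be05_nt.DivisionAlgebras.result
    (A : AData) (hD : A.IsDivision) (hC : A.IsCentral) (hr : 1 ≤ rk A)
    (L : Level A) (hTF : L.TorsionFree) (V : Coef L) (hV : V.IsCont) (m : Ideal (HeckeAlg V)) [m.IsMaximal]
    (k : Type) [Field k] [Algebra (Res m) k] (ρ : GRep A.F A.n k) (hatt : Attached m k ρ)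
    (hne : NonEisenstein ρ) (i : ℕ) (hm : InSupport V i m) :
    (1 ≤ i ∧ (i : ℤ) ≤ dY A - 1) ∧
    (2 ≤ rk A → 2 ≤ i ∧ (i : ℤ) ≤ dY A - 2) ∧
    (q0 A ≤ 2 → q0 A ≤ rk A → q0 A ≤ i ∧ (i : ℤ) ≤ q0 A + ell0 A) :=
  main A hD hC hr L hTF V hV m k ρ hatt hne i hm
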