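import Pool.Agent.CG2F.Transfer

/-!
# The Calegari-Geraghty vanishing conjecture for `GL₂` over number fields with two archimedean
places

Let `F` be a number field with at least two archimedean places, and `Y(K_f)` the locally
symmetric space of level `K_f` of the group `GL₂` over `F`. For every prime `p`, every local
system `W` and every non-Eisenstein maximal ideal `m` of the Hecke algebra, the localisation at
`m` of the cohomology of `Y(K_f)` is concentrated in the degrees from `2` to `d_Y - 2`. If `F` has
exactly two archimedean places, this is the range from `q₀` to `q₀ + ℓ₀`.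
-/

open Pool.Agent.CG2F NumberField in
theorem Pool.Agent.Results.MP_34be05_nt.GL2TwoPlaces.result
    (F : Type) [Field F] [NumberField F] (hF : 2 ≤ Fintype.card (InfinitePlace F))
    (p : Pr) (S : Finset Pr) (L : Level F p S) (hTF : L.TorsionFree)
    (O : Type) [CommRing O] [IsDomain O] [IsDiscreteValuationRing O]
    (hpO : ((p : ℕ) : O) ∈ IsLocalRing.maximalIdeal O)
    (W : Type) [AddCommGroup W] [Module O W] [Module.Finite O W]
    (σ : Representation O L.Kp W) (hσ : IsContinuousRep L σ)
    (m : Ideal (HeckeAlg F S O)) [m.IsMaximal]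
    (k : Type) [Field k] [Algebra (HeckeAlg F S O ⧸ m) k]
    (ρ : GalF F →* GL (Fin 2) k) (hatt : Attached m k ρ) (hne : NonEisenstein ρ)
    (i : ℕ) (hm : InSupport L σ i m) :
    (2 ≤ i ∧ (i : ℤ) ≤ dY F - 2) ∧
      (Fintype.card (InfinitePlace F) = 2 → q0 F ≤ i ∧ (i : ℤ) ≤ q0 F + ell0 F) :=
  main F hF p S L hTF O hpO W σ hσ m k ρ hatt hne i hm
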