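import Pool.Agent.CGUF.Main

/-!
# The Calegari-Geraghty vanishing conjecture for anisotropic unitary groups over number fields

Let `B` be a central simple algebra of degree `n ≥ 3` over the quadratic extension `K` of the
number field `F`, with an anisotropic involution of the second kind which is positive at the real
places of `F` that do not split in `K`, and `Y(K_f)` the locally symmetric space of level `K_f` of
the unitary group `G` of `B`. Assume that the real rank `r` of the derived group of `G` is not zero.
For every prime `p`, every local system `W` and every non-Eisenstein maximal ideal `m` of the Hecke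
algebra, the localisation at `m` of the cohomology of `Y(K_f)` is concentrated in the degrees from
`1` to `d_Y - 1`, and from `2` to `d_Y - 2` if `r ≥ 2`. If `q₀ ≤ 2` and `q₀ ≤ r`, this gives the
range from `q₀` to `q₀ + ℓ₀` of the conjecture.
-/

open Pool.Agent.CGUF in
theorem Pool.Agent.Results.MP_34be05_nt.UnitaryGroups.result
    (A : UData) (κ : Emb A) (hU : IsUnitaryData κ) (hn : 3 ≤ A.n) (hr : 1 ≤ rk A)
    (L : Level A) (hTF : L.TorsionFree) (V : Coef L) (hV : V.IsCont) (k : Type) [Field k]
    (f : Eig V k) (hf : f.IsMax) (ρ : DRep A.F A.n k) (j : KEmb A) (hatt : Attached κ f ρ j)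
    (hne : NonEisenstein ρ) (i : ℕ) (hm : InSupport i f) :
    (1 ≤ i ∧ (i : ℤ) ≤ dY A - 1) ∧
    (2 ≤ rk A → 2 ≤ i ∧ (i : ℤ) ≤ dY A - 2) ∧
    (q0 A ≤ 2 → q0 A ≤ rk A → q0 A ≤ i ∧ (i : ℤ) ≤ q0 A + ell0 A) :=
  main A κ hU hn hr L hTF V hV k f hf ρ j hatt hne i hm
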